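import Pool.Agent.Work.MP_58cfe3_nt.EqQ
import Pool.Agent.Work.MP_58cfe3_nt.WCrit

/-!
# MP_58cfe3_nt: the logarithmically averaged Elliott conjecture and cubes

Q1 is equivalent to the vanishing of the logarithmic self-correlations of one function over
nondegenerate cubes.  For each function and along each filter of scales, vanishing cube
self-correlations give vanishing correlations with arbitrary companions.
-/

set_option autoImplicit false

namespace Pool.Agent.Results.MP_58cfe3_nt.CubeCriterion

open Pool.Agent.Work.MP_58cfe3_nt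
open Filter Topology

theorem result :
    (Q1 ↔ ∀ g : ℤ → ℂ, MulBdd g → NonPret g → ∀ r : ℕ, 2 ≤ r → Cubes g r) ∧
    (∀ l : Filter ℕ, l ≤ atTop → ∀ (g : ℤ → ℂ) (r : ℕ), MulBdd g →
      CubesAt l g r → UniversalAt l g r) :=
  ⟨q1_iff, fun _ hl _ _ hg hc => criterion_at hl hg hc⟩

end Pool.Agent.Results.MP_58cfe3_nt.CubeCriterion
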