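import Pool.Agent.Work.MP_58cfe3_nt.FEnd

/-!
# MP_58cfe3_nt: one locally pretentious function and arbitrary companions

(A) The finitary theorem, uniform in all functions, in the format of Tao's two-point theorem: if at the
scale `X` the 1-bounded multiplicative function `g` is near a twisted character `χ(n) n^(it)` on the
primes in `(X^η, X]` and far from it over all primes `p ≤ X`, then the logarithmic correlations of
`g` with any number of ARBITRARY 1-bounded multiplicative functions are small over all windows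
`X/ω < n ≤ X` with `ω` at least a constant.
(B) If `g` satisfies (H) and is near some twisted character (of bounded modulus, with `|t| ≤ X^A`,
depending on the scale) at almost all scales, then the correlations vanish along one set of
scales of loglog density one, uniformly in the companions.
(C) Functions which weakly pretend to be a twisted character are of this kind.
(D) For slow functions the correlations vanish along all scales.
-/

set_option autoImplicit false

namespace Pool.Agent.Results.MP_58cfe3_nt.LocallyPretentious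

open Pool.Agent.Work.MP_58cfe3_nt
open Filter Topology

theorem result :
    (∀ (r : ℕ) (h : ℤ) (h' : Fin r → ℤ), (∀ i, h' i ≠ h) → ∀ (Q A : ℕ) (ε : ℝ), 0 < ε →
      ∃ η δ K ω₀ : ℝ, 0 < η ∧ 0 < δ ∧ 1 < ω₀ ∧ ∀ (X : ℕ) (ω : ℝ), ω₀ ≤ ω → ω ≤ X →
        ∀ g : ℤ → ℂ, MulBdd g → NearFar g Q A η δ K X →
        ∀ f : Fin r → ℤ → ℂ, (∀ i, MulBdd (f i)) →
          ‖∑ n ∈ Finset.Ioc ⌊(X : ℝ) / ω⌋₊ X, (g (n + h) * ∏ i, f i (n + h' i)) / n‖ ≤
            ε * Real.log ω) ∧
    (∀ g : ℤ → ℂ, MulBdd g → NonPret g → LocPret g →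
      ∃ S : Set ℕ, LLNull Sᶜ ∧ UnifOn S g ∧ ∀ r : ℕ, UniversalAt (atTop ⊓ 𝓟 S) g r) ∧
    (∀ g : ℤ → ℂ, MulBdd g → WeakPret g → LocPret g) ∧
    (∀ g : ℤ → ℂ, MulBdd g → Slow g → UnifOn Set.univ g ∧ ∀ r : ℕ, UniversalAt atTop g r) :=
  ⟨fun _ h h' hne Q A _ hε => unif_win h h' hne Q A hε,
    fun _ hg hn hl => unif_scales hg hn hl, fun _ hg hw => weak_loc hg.bdd hw,
    fun _ hg hs => unif_slow hg hs⟩

end Pool.Agent.Results.MP_58cfe3_nt.LocallyPretentious
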