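import Pool.Agent.Work.MP_58cfe3_nt.Z.Fin

/-!
# MP_58cfe3_nt: a metric Elliott theorem for deformations of arbitrary functions

`g` is ANY 1-bounded multiplicative function and `F` a completely additive function with values in
`ℝ^d`; `g_t(n) = g(n) exp(i t·F(n))`, `t ∈ ℝ^d`.

(A) If `F` varies slowly on the primes and has spread of exponent `κ`, then for all `t` outside a set of
Hausdorff dimension zero there is one set `S` of scales of loglog density one along which all
logarithmic correlations of `g_t` with arbitrary 1-bounded multiplicative companions vanish, and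
for all `t` outside a set of Hausdorff dimension at most `2/κ` they vanish along all scales.
(B) This applies to bounded `F(p)` whose covariance matrices `∑_{p ≤ X} F(p) F(p)^T / p` are at least
`c (log log X)^κ`; if `κ d > 2` the correlations vanish along all scales for almost all `t`.
(C) It applies to `F(p) = log log p` (`κ = 3`): for every 1-bounded multiplicative `g` and all real `t`
outside a set of Hausdorff dimension at most `2/3` (in particular for almost all `t`) the function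
`g(n) L(n)^(it)`, where `L` is the completely multiplicative function with `L(p) = log p`, satisfies
the full conclusion of the conjecture, with arbitrary companions.
-/

set_option autoImplicit false

namespace Pool.Agent.Results.MP_58cfe3_nt.MetricTwists

open Pool.Agent.Work.MP_58cfe3_nt
open Filter Topology MeasureTheory

private theorem ae_of_dim {d : ℕ} {Q : (Fin d → ℝ) → Prop} {κ : ℝ} (hκ : 0 < κ)
    (h : dimH {t | ¬ Q t} ≤ ENNReal.ofReal (2 / κ)) (hd : 2 < κ * d) : ∀ᵐ t, Q t := by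
  refine null_of_dim (lt_of_le_of_lt h ?_)
  have h1 : 2 / κ < d := by rw [div_lt_iff₀ hκ]; linarith
  rw [show ((d : ℕ) : ENNReal) = ENNReal.ofReal d by simp]
  exact (ENNReal.ofReal_lt_ofReal_iff (lt_trans (by positivity) h1)).2 h1

theorem result :
    (∀ g : ℤ → ℂ, MulBdd g → ∀ (d : ℕ) (F : ℕ → Fin d → ℝ) (κ : ℝ), 0 < κ → SlowVar F →
      Spread F κ →
        dimH {t : Fin d → ℝ | ¬ ∃ S : Set ℕ, LLNull Sᶜ ∧
          ∀ r : ℕ, UniversalAt (atTop ⊓ 𝓟 S) (defo g F t) r} = 0 ∧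
        dimH {t : Fin d → ℝ | ¬ ∀ r : ℕ, Universal (defo g F t) r} ≤ ENNReal.ofReal (2 / κ)) ∧
    (∀ g : ℤ → ℂ, MulBdd g → ∀ (d : ℕ) (F : ℕ → Fin d → ℝ) (κ c M : ℝ), 0 < κ → 0 < c →
      (∀ p : ℕ, p.Prime → ∀ l, |F p l| ≤ M) →
      (∀ᶠ X : ℕ in atTop, ∀ β : Fin d → ℝ, c * Real.log (Real.log X) ^ κ * ∑ l, β l ^ 2 ≤
        ∑ p ∈ (Finset.Icc 1 X).filter Nat.Prime, (∑ l, β l * F p l) ^ 2 / p) →
        dimH {t : Fin d → ℝ | ¬ ∃ S : Set ℕ, LLNull Sᶜ ∧
          ∀ r : ℕ, UniversalAt (atTop ⊓ 𝓟 S) (defo g F t) r} = 0 ∧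
        dimH {t : Fin d → ℝ | ¬ ∀ r : ℕ, Universal (defo g F t) r} ≤ ENNReal.ofReal (2 / κ) ∧
        (2 < κ * d → ∀ᵐ t : Fin d → ℝ, ∀ r : ℕ, Universal (defo g F t) r)) ∧
    (∀ g : ℤ → ℂ, MulBdd g →
      dimH {t : ℝ | ¬ ∃ S : Set ℕ, LLNull Sᶜ ∧ ∀ r : ℕ, UniversalAt (atTop ⊓ 𝓟 S)
        (twist g Set.univ fun p => (Real.log p : ℂ) ^ ((t : ℂ) * Complex.I)) r} = 0 ∧
      dimH {t : ℝ | ¬ ∀ r : ℕ, Universal
        (twist g Set.univ fun p => (Real.log p : ℂ) ^ ((t : ℂ) * Complex.I)) r} ≤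
          ENNReal.ofReal (2 / 3) ∧
      ∀ᵐ t : ℝ, ∀ r : ℕ, Universal
        (twist g Set.univ fun p => (Real.log p : ℂ) ^ ((t : ℂ) * Complex.I)) r) := by
  refine ⟨fun g hg d F κ hκ hF hs => ⟨metric_ll hg hF hκ hs, metric_all hg hF hκ hs⟩,
    fun g hg d F κ c M hκ hc hM h => ?_, fun g hg => ?_⟩
  · have hF : SlowVar F := slow_bdd hM
    have hs : Spread F κ := spread_bdd hM hc h
    exact ⟨metric_ll hg hF hκ hs, metric_all hg hF hκ hs,
      fun hd => ae_of_dim hκ (metric_all hg hF hκ hs) hd⟩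
  · have h3 : (0 : ℝ) < 3 := by norm_num
    have hb := le_trans (dim_real (Q := fun t => ¬ ∀ r : ℕ, Universal (defo g
      (fun (p : ℕ) (_ : Fin 1) => Real.log (Real.log p)) t) r))
      (metric_all hg slow_loglog h3 spread_loglog)
    have ha := le_trans (dim_real (Q := fun t => ¬ ∃ S : Set ℕ, LLNull Sᶜ ∧ ∀ r : ℕ,
      UniversalAt (atTop ⊓ 𝓟 S) (defo g
      (fun (p : ℕ) (_ : Fin 1) => Real.log (Real.log p)) t) r))
      (metric_ll hg slow_loglog h3 spread_loglog).le
    simp only [← defo_loglog] at ha hb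
    refine ⟨nonpos_iff_eq_zero.1 ha, hb, ?_⟩
    refine null_of_dim_real (lt_of_le_of_lt hb ?_)
    rw [← ENNReal.ofReal_one]
    exact (ENNReal.ofReal_lt_ofReal_iff one_pos).2 (by norm_num)

end Pool.Agent.Results.MP_58cfe3_nt.MetricTwists
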