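import Pool.Agent.Work.MP_58cfe3_nt.RFin

/-!
# MP_58cfe3_nt: random twists and arbitrary companions

Every 1-bounded multiplicative function, twisted at the primes of a set `Q` of positive lower
loglog density by independent mean zero numbers of modulus at most `1`, has almost surely vanishing
logarithmic correlations with any number of ARBITRARY 1-bounded multiplicative functions.
-/

set_option autoImplicit false

namespace Pool.Agent.Results.MP_58cfe3_nt.RandomTwists

open Pool.Agent.Work.MP_58cfe3_nt
open Filter Topology MeasureTheory ProbabilityTheory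

theorem result :
    ∀ (Ω : Type) [MeasurableSpace Ω] (P : Measure Ω) [IsProbabilityMeasure P] (ε : ℕ → Ω → ℂ),
      (∀ p, Measurable (ε p)) → iIndepFun ε P → (∀ p ω, ‖ε p ω‖ ≤ 1) →
      ∀ (Q : Set ℕ) (c : ℝ), 0 < c →
      (∀ᶠ X : ℕ in atTop, c * Real.log (Real.log X) ≤ QS Q X) →
      (∀ p ∈ Q, ∫ ω, ε p ω ∂P = 0) →
      ∀ f : ℤ → ℂ, MulBdd f →
        ∀ᵐ ω ∂P, MulBdd (twist f Q fun p => ε p ω) ∧
          ∀ r : ℕ, Universal (twist f Q fun p => ε p ω) r := by
  intro Ω _ P _ ε hm hi hb Q c hc hQ h0 f hf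
  exact random_universal hm hi hb hc hQ h0 hf

end Pool.Agent.Results.MP_58cfe3_nt.RandomTwists
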